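import Pool.Agent.K1H14.SD.Stm

/-!
# Project SD: the square of a bilinear form (S_PAIR)
-/

namespace Pool.Agent.K1H83.SD

open Pool.Agent.K1H14.SD Pool.Agent.K1H14.KS

open scoped symmDiff

universe u

variable {A : Type u} [Ring A] [Algebra ℂ A] {d : ℕ} {M : Finset (Fin d) → A} {st : A →ₗ[ℂ] A}
  {tr : A →ₗ[ℂ] ℂ}

lemma tr_st (hE : EvenCl M st) (hT : IsTr M tr) (x : A) : tr (st x) = tr x := by
  induction hE.span x using Submodule.span_induction with
  | mem x hx =>
    obtain ⟨K, hK, rfl⟩ := hx
    rw [hE.st_M K hK, map_smul, hT.1 K hK]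
    split_ifs with h
    · subst h; simp
    · simp
  | zero => simp
  | add x y _ _ hx hy => rw [map_add, map_add, map_add, hx, hy]
  | smul c x _ hx => rw [map_smul, map_smul, map_smul, hx]

lemma M_mul_st (hE : EvenCl M st) (K : Finset (Fin d)) (hK : Even K.card) :
    M K * st (M K) = 1 := by
  have h1 := hE.st_inv K hK
  rw [hE.st_M K hK] at h1 ⊢
  rw [mul_smul_comm]
  rw [smul_mul_assoc] at h1
  exact h1

lemma card_evs (h2 : S_AVG.{u}) (hE : EvenCl M st) (hT : IsTr M tr) :
    ((evs d).card : ℂ) = (2 : ℂ) ^ (d - 1) := by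
  have h := (h2 M st tr hE hT).1 1
  have h1 : ∑ K ∈ evs d, M K * 1 * st (M K) = ∑ K ∈ evs d, (1 : A) := by
    refine Finset.sum_congr rfl fun K hK => ?_
    rw [mul_one, M_mul_st hE K (by simpa [evs] using hK)]
  have h3 : tr 1 = 1 := by
    have := hT.1 ∅ (by simp)
    rw [hE.one, if_pos rfl] at this
    exact this
  rw [h1, h3, mul_one, Finset.sum_const] at h
  have h4 : (((evs d).card : ℂ) - (2 : ℂ) ^ (d - 1)) • (1 : A) = 0 := by
    rw [sub_smul, ← h, Nat.cast_smul_eq_nsmul, sub_self]
  rcases smul_eq_zero.mp h4 with h5 | h5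
  · exact sub_eq_zero.mp h5
  · exact absurd h5 hE.ne

/-- the square of a bilinear form -/
theorem t_PAIR (h2 : S_AVG.{u}) : S_PAIR.{u} := by
  intro A _ _ d M st tr u₀ u₀' m b b' hE hT hu hu' hspan hd u
  set p : A := u * u₀' with hp
  have hexp := (h2 M st tr hE hT).2
  -- every vector in the basis `b`
  have I1 : ∀ w : A, ∑ i, tr (st w * b' i * u₀) • b i = w := by
    intro w
    have hw : w ∈ Submodule.span ℂ (Set.range b) := by rw [hspan]; trivial
    induction hw using Submodule.span_induction with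
    | mem w hw =>
      obtain ⟨j, rfl⟩ := hw
      rw [Finset.sum_congr rfl (fun i _ => by rw [hd j i])]
      simp
    | zero => simp
    | add x y _ _ hx hy =>
      conv_rhs => rw [← hx, ← hy]
      rw [← Finset.sum_add_distrib]
      refine Finset.sum_congr rfl fun i _ => ?_
      rw [map_add, add_mul, add_mul, map_add, add_smul]
    | smul c x _ hx =>
      conv_rhs => rw [← hx]
      rw [Finset.smul_sum]
      refine Finset.sum_congr rfl fun i _ => ?_
      rw [map_smul, smul_mul_assoc, smul_mul_assoc, map_smul, smul_smul, smul_eq_mul]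
  -- nondegeneracy
  have nd : ∀ v : A, (∀ i, tr (st (b i) * v * u₀) = 0) → v = 0 := by
    intro v hv
    have h3 : ∀ w : A, tr (st w * v * u₀) = 0 := by
      intro w
      rw [← I1 w, map_sum, Finset.sum_mul, Finset.sum_mul, map_sum]
      refine Finset.sum_eq_zero fun i _ => ?_
      rw [map_smul, smul_mul_assoc, smul_mul_assoc, map_smul, hv i, smul_zero]
    have h4 : v * u₀ = 0 := by
      rw [hexp (v * u₀)]
      refine Finset.sum_eq_zero fun K _ => ?_
      rw [← mul_assoc, h3, zero_smul]
    calc v = v * u₀ * u₀' := by rw [mul_assoc, hu, mul_one]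
      _ = 0 := by rw [h4, zero_mul]
  have I2 : ∀ v : A, ∑ i, tr (st (b i) * v * u₀) • b' i = v := by
    intro v
    rw [← sub_eq_zero]
    apply nd
    intro j
    rw [mul_sub, sub_mul, map_sub, Finset.mul_sum, Finset.sum_mul, map_sum, sub_eq_zero]
    rw [Finset.sum_congr rfl (fun i _ => by
      rw [mul_smul_comm, smul_mul_assoc, map_smul, hd j i])]
    simp
  -- first contraction
  have hpu : ∀ x : A, x * p * u₀ = x * u := by
    intro x
    rw [hp, mul_assoc, mul_assoc, hu', mul_one]
  have C1 : ∀ j, ∑ i, tr (st (b i) * b j * u) * tr (st (b' i) * b' j * u) =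
      tr (st (b j * p) * (b' j * p) * u₀) := by
    intro j
    have h3 := I2 (b j * p)
    conv_rhs => rw [← h3]
    rw [map_sum, Finset.sum_mul, Finset.sum_mul, map_sum]
    refine Finset.sum_congr rfl fun i _ => ?_
    rw [map_smul, smul_mul_assoc, smul_mul_assoc, map_smul, smul_eq_mul, ← mul_assoc, hpu,
      ← mul_assoc, hpu]
  -- second contraction
  have C2 : ∑ j, tr (st (b j * p) * (b' j * p) * u₀) =
      ∑ K ∈ evs d, tr (st p * (st (M K) * M K) * u₀' * u) := by
    have h5 : ∀ j, tr (st (b j * p) * (b' j * p) * u₀) =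
        ∑ K ∈ evs d, tr (st (M K) * b' j * u₀) * tr (st p * (st (b j) * (M K * (u₀' * u)))) := by
      intro j
      have h6 : b' j * p * u₀ = ∑ K ∈ evs d, tr (st (M K) * b' j * u₀) • (M K * (u₀' * u)) := by
        have h7 := hexp (b' j * u₀)
        calc b' j * p * u₀ = b' j * u := hpu _
          _ = (b' j * u₀) * (u₀' * u) := by
            rw [mul_assoc, ← mul_assoc u₀, hu, one_mul]
          _ = _ := by
            conv_lhs => rw [h7]
            rw [Finset.sum_mul]
            refine Finset.sum_congr rfl fun K _ => ?_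
            rw [smul_mul_assoc, ← mul_assoc (st (M K))]
      rw [mul_assoc, h6, hE.st_mul, Finset.mul_sum, map_sum]
      refine Finset.sum_congr rfl fun K _ => ?_
      rw [mul_smul_comm, map_smul, smul_eq_mul, mul_assoc (st p)]
    rw [Finset.sum_congr rfl (fun j _ => h5 j), Finset.sum_comm]
    refine Finset.sum_congr rfl fun K _ => ?_
    have h8 := I1 (M K)
    have h9 : st (M K) = ∑ i, tr (st (M K) * b' i * u₀) • st (b i) := by
      conv_lhs => rw [← h8]
      rw [map_sum]
      refine Finset.sum_congr rfl fun i _ => ?_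
      rw [map_smul]
    have h10 : st p * (st (M K) * M K) * u₀' * u = st p * (st (M K) * (M K * (u₀' * u))) := by
      simp only [mul_assoc]
    rw [h10]
    conv_rhs => rw [h9]
    rw [Finset.sum_mul, Finset.mul_sum, map_sum]
    refine Finset.sum_congr rfl fun i _ => ?_
    rw [smul_mul_assoc, mul_smul_comm, map_smul, smul_eq_mul]
  have C3 : ∑ K ∈ evs d, tr (st p * (st (M K) * M K) * u₀' * u) =
      (2 : ℂ) ^ (d - 1) * tr (u * u₀' * st u * st u₀') := by
    have h5 : ∀ K ∈ evs d, tr (st p * (st (M K) * M K) * u₀' * u) =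
        tr (u * u₀' * st u * st u₀') := by
      intro K hK
      rw [hE.st_inv K (by simpa [evs] using hK), mul_one, ← tr_st hE hT]
      have h6 : st (st p * u₀' * u) = st u * st u₀' * (u * u₀') := by
        rw [hE.st_mul, hE.st_mul, hE.st_st, hp, ← mul_assoc]
      rw [h6, hT.2]
      simp only [mul_assoc]
    rw [Finset.sum_congr rfl h5, Finset.sum_const, nsmul_eq_mul, card_evs h2 hE hT]
  rw [← C3, ← C2, ← Finset.sum_congr rfl (fun j _ => C1 j)]
  rw [Fintype.sum_equiv (finTwoArrowEquiv (Fin m)) _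
    (fun x : Fin m × Fin m => tr (st (b x.1) * b x.2 * u) * tr (st (b' x.1) * b' x.2 * u))
    (fun a => by simp [finTwoArrowEquiv])]
  rw [Fintype.sum_prod_type, Finset.sum_comm]

end Pool.Agent.K1H83.SD
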